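import Mathlib
import Pool.Agent.H.MP_d56e90_lc.A

namespace Pool.Agent.Results.MP_d56e90_lc.Yes

open Cardinal

universe u

theorem result (G : Type u) [AddCommGroup G] [Infinite G] (κ : Cardinal.{u}) (hκ : κ < #G)
    (r : ℕ) (χ : G → Fin r) : ∃ (A : Set G) (g : G), A = (fun a => 2 • g - a) '' A ∧
      (∃ c, ∀ a ∈ A, χ a = c) ∧ κ ≤ #A :=
  Pool.Agent.H.MP_d56e90_lc.main G κ hκ r χ

end Pool.Agent.Results.MP_d56e90_lc.Yes
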